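import Pool.Agent.NDR.Defs

set_option autoImplicit false

namespace Pool.Agent.NDR.H91

open Finset Pool.Agent.Helper30_Simp Pool.Agent.NDR

section aux

variable {σ : Type} [Fintype σ]

theorem eqv (g : σ → ℕ) (i : σ) : (Finsupp.equivFunOnFinite.symm g) i = g i := rfl

open scoped Classical in
theorem coeff_prt {K : Type} [Field K] (f : MvPolynomial σ K) (S : Finset (σ →₀ ℕ))
    (α : σ →₀ ℕ) : MvPolynomial.coeff α (prt f S) = if α ∈ S then MvPolynomial.coeff α f else 0 := by
  unfold prt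
  rw [MvPolynomial.coeff_sum]
  simp_rw [MvPolynomial.coeff_monomial]
  by_cases h : α ∈ S
  · rw [if_pos h, Finset.sum_eq_single α]
    · rw [if_pos rfl]
    · intro b _ hb
      rw [if_neg hb]
    · intro h1
      exact absurd h h1
  · rw [if_neg h]
    refine Finset.sum_eq_zero fun b hb => ?_
    rw [if_neg]
    rintro rfl
    exact h hb

theorem support_prt {K : Type} [Field K] (f : MvPolynomial σ K) (S : Finset (σ →₀ ℕ))
    (hS : S ⊆ f.support) : (prt f S).support = S := by
  classical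
  ext α
  rw [MvPolynomial.mem_support_iff, coeff_prt]
  constructor
  · intro h
    by_contra h1
    rw [if_neg h1] at h
    exact h rfl
  · intro h
    rw [if_pos h]
    exact MvPolynomial.mem_support_iff.1 (hS h)

theorem fcn_eq_lev (M : Finset (σ →₀ ℕ)) (κ : σ → ℕ) (N : ℕ) (hge : ∀ α ∈ M, N ≤ dot κ α)
    (hne : (lev M κ N).Nonempty) : fcn M κ = lev M κ N := by
  classical
  obtain ⟨β, hβ⟩ := hne
  have hβ' := Finset.mem_filter.1 hβ
  ext α
  unfold fcn
  unfold lev
  rw [Finset.mem_filter, Finset.mem_filter]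
  constructor
  · rintro ⟨h1, h2⟩
    refine ⟨h1, le_antisymm ?_ (hge α h1)⟩
    rw [← hβ'.2]
    exact h2 β hβ'.1
  · rintro ⟨h1, h2⟩
    refine ⟨h1, fun γ hγ => ?_⟩
    rw [h2]
    exact hge γ hγ

/-- the polynomial obtained from a Laurent polynomial by forgetting the coordinates in `P` and
shifting the others -/
noncomputable def Psi (P : Finset σ) (s : σ → ℤ) : ((σ → ℤ) →₀ ℂ) →ₗ[ℂ] MvPolynomial σ ℂ := by
  classical
  exact Finsupp.lsum ℂ fun m => MvPolynomial.monomial
    (Finsupp.equivFunOnFinite.symm fun i => if i ∈ P then 0 else (m i + s i).toNat)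

open scoped Classical in
theorem Psi_single (P : Finset σ) (s : σ → ℤ) (m : σ → ℤ) (c : ℂ) :
    Psi P s (Finsupp.single m c) = MvPolynomial.monomial
      (Finsupp.equivFunOnFinite.symm fun i => if i ∈ P then 0 else (m i + s i).toNat) c := by
  unfold Psi
  rw [Finsupp.lsum_single]

end aux

open scoped Classical in
/-- **glue**: the root side from the blocks R, L, B -/
theorem glue (hR : RESStmt) (hL : LPBStmt) (hB : BEZStmt) : RootsStmt := by
  intro σ _ F hF κ N B hN hge hBM hBne hBN hind hflat hgood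
  by_contra hroot
  obtain ⟨κ', N', K, P, p, hD, hz, hslope, hKP, hdeg, hlin, hrank⟩ :=
    hL σ F.support κ N B hN hge hBM hBne hBN hind hflat hgood
  have hroot' : (Helper6_Mono.bfun F).eval (-(((∑ i, κ' i : ℕ) : ℂ) / (N' : ℕ))) ≠ 0 := by
    have h1 : (((∑ i, κ' i : ℕ) : ℂ) / (N' : ℕ)) = (((∑ i, κ i : ℕ) : ℂ) / (N : ℕ)) := by
      have hN1 : (N : ℂ) ≠ 0 := by exact_mod_cast hN.ne'
      have hN2 : (N' : ℂ) ≠ 0 := by exact_mod_cast hD.pos.ne'
      rw [div_eq_div_iff hN2 hN1]
      exact_mod_cast hslope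
    rw [h1]
    exact hroot
  obtain ⟨h, hsupp, hsum⟩ := hR σ F κ' N' P p hF.1 hD hroot'
  have hlevM : lev F.support κ' N' ⊆ F.support := Finset.filter_subset _ _
  have hsp : (prt F (lev F.support κ' N')).support = lev F.support κ' N' :=
    support_prt F _ hlevM
  have hPI : P ⊆ sup κ' := hD.sub
  -- the monomials of `h k`
  have hm : ∀ k ∈ sup κ', ∀ m ∈ (h k).support, k ∈ K ∧ m k = 0 ∧ ∀ i ∈ P, i ≠ k → m i = 1 := by
    intro k hk m hm
    obtain ⟨h1, h2, h3⟩ := hsupp k hk m hm
    exact hdeg k hk m h1 h2 h3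
  have hzero : ∀ k ∈ sup κ', k ∉ K → h k = 0 := by
    intro k hk hkK
    rw [← Finsupp.support_eq_empty]
    by_contra hne
    obtain ⟨m, hm1⟩ := Finset.nonempty_iff_ne_empty.2 hne
    exact hkK (hm k hk m hm1).1
  -- the bound
  obtain ⟨n, hn⟩ : ∃ n : ℕ, ∀ k ∈ K, ∀ m ∈ (h k).support, ∀ i, 1 - m i ≤ (n : ℤ) := by
    refine ⟨∑ k ∈ K, ∑ m ∈ (h k).support, ∑ i, (1 - m i).toNat, fun k hk m hm1 i => ?_⟩
    have h1 : (1 - m i).toNat ≤ ∑ i, (1 - m i).toNat :=
      Finset.single_le_sum (f := fun i => (1 - m i).toNat) (fun _ _ => Nat.zero_le _)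
        (Finset.mem_univ i)
    have h2 : ∑ i, (1 - m i).toNat ≤ ∑ m ∈ (h k).support, ∑ i, (1 - m i).toNat :=
      Finset.single_le_sum (f := fun m : σ → ℤ => ∑ i, (1 - m i).toNat)
        (fun _ _ => Nat.zero_le _) hm1
    have h3 : ∑ m ∈ (h k).support, ∑ i, (1 - m i).toNat ≤
        ∑ k ∈ K, ∑ m ∈ (h k).support, ∑ i, (1 - m i).toNat :=
      Finset.single_le_sum (f := fun k => ∑ m ∈ (h k).support, ∑ i, (1 - m i).toNat)
        (fun _ _ => Nat.zero_le _) hk
    have h4 : (1 - m i : ℤ) ≤ ((1 - m i).toNat : ℤ) := Int.self_le_toNat _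
    have h5 : (((1 - m i).toNat : ℕ) : ℤ) ≤
        ((∑ k ∈ K, ∑ m ∈ (h k).support, ∑ i, (1 - m i).toNat : ℕ) : ℤ) := by
      exact_mod_cast h1.trans (h2.trans h3)
    exact h4.trans h5
  -- the Bernstein block
  have hfaces : ∀ η : σ → ℤ, TorusSmooth (prt (prt F (lev F.support κ' N'))
      (fcz (prt F (lev F.support κ' N')).support η)) := by
    intro η
    have h1 := hF.2 κ' η (fun α hα => lt_of_lt_of_le hD.pos (hD.ge α hα))
    rw [fcn_eq_lev _ _ _ hD.ge hD.ne] at h1
    rw [hsp]
    have h2 : prt (prt F (lev F.support κ' N')) (fcz (lev F.support κ' N') η) =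
        prt F (fcz (lev F.support κ' N') η) := by
      ext α
      rw [coeff_prt, coeff_prt, coeff_prt]
      by_cases hα : α ∈ fcz (lev F.support κ' N') η
      · have : α ∈ lev F.support κ' N' := by
          unfold fcz at hα
          exact (Finset.mem_filter.1 hα).1
        rw [if_pos hα, if_pos this, if_pos hα]
      · rw [if_neg hα, if_neg hα]
    rw [h2]
    exact h1
  have hBZ := hB σ ℂ (prt F (lev F.support κ' N')) K P hKP
    (by rw [hsp]; exact hlin) hfaces (by rw [hsp]; exact hrank) n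
  -- the equation
  set s : σ → ℤ := fun i => (n : ℤ) - (if κ' i = 0 then 0 else 1) with hs
  have hsn : ∀ i, (n : ℤ) - 1 ≤ s i := by
    intro i
    show (n : ℤ) - 1 ≤ (n : ℤ) - (if κ' i = 0 then 0 else 1)
    split_ifs <;> omega
  refine hBZ (fun k => Psi P s (h k)) ?_
  have hE := congrArg (Psi P s) hsum
  rw [Psi_single] at hE
  have hLHS : (MvPolynomial.monomial (Finsupp.equivFunOnFinite.symm fun i => if i ∈ P then 0 else
      ((fun i => if κ' i = 0 then (0 : ℤ) else 1) i + s i).toNat)) (1 : ℂ) =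
      ∏ i ∈ Finset.univ.filter (fun i => i ∉ P), MvPolynomial.X i ^ n := by
    rw [MvPolynomial.monomial_eq, map_one, one_mul, Finsupp.prod_fintype _ _
      (fun i => by rw [pow_zero]), Finset.prod_filter]
    refine Finset.prod_congr rfl fun i _ => ?_
    rw [eqv]
    by_cases hi : i ∈ P
    · rw [if_pos hi, if_neg (not_not.2 hi), pow_zero]
    · rw [if_neg hi, if_pos hi]
      have : ((if κ' i = 0 then (0 : ℤ) else 1) + s i).toNat = n := by
        rw [hs]
        simp
      rw [this]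
  rw [← hLHS, ← hE, map_sum]
  have hKI : K ⊆ sup κ' := hKP.trans hPI
  rw [← Finset.sum_subset hKI (fun k hk hkK => by
    rw [hzero k hk hkK]
    have : thm (toL (prt F (lev F.support κ' N'))) k 0 = 0 := by
      unfold thm
      simp
    rw [this, map_zero])]
  refine Finset.sum_congr rfl fun k hk => ?_
  -- one `k`
  have hkI := hKI hk
  have h1 : thm (toL (prt F (lev F.support κ' N'))) k (h k) =
      ∑ α ∈ lev F.support κ' N', (h k).sum fun m d => Finsupp.single
        (m + fun i => ((α i : ℕ) : ℤ)) ((((α k : ℕ) : ℤ) : ℂ) *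
          MvPolynomial.coeff α (prt F (lev F.support κ' N')) * d) := by
    unfold thm toL
    rw [hsp]
    rw [← Finsupp.sum_finsetSum_index]
    · refine Finset.sum_congr rfl fun α _ => ?_
      rw [Finsupp.sum_single_index]
      simp
    · intro a
      simp
    · intro a b c
      rw [← Finsupp.sum_add]
      refine Finsupp.sum_congr fun m _ => ?_
      rw [← Finsupp.single_add]
      ring_nf
  rw [h1, map_sum, Finset.sum_mul, hsp]
  rw [Finset.sum_filter]
  refine Finset.sum_congr rfl fun α hα => ?_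
  by_cases hαk : α k = 0
  · rw [if_neg (not_not.2 hαk)]
    rw [hαk]
    simp
  rw [if_pos hαk]
  obtain ⟨ha1, ha2⟩ := hlin k hk α hα hαk
  rw [ha1]
  have h2 : Psi P s (h k) = (h k).sum fun m d => MvPolynomial.monomial
      (Finsupp.equivFunOnFinite.symm fun i => if i ∈ P then 0 else (m i + s i).toNat) d := by
    unfold Psi
    rw [Finsupp.lsum_apply]
  rw [h2, map_finsuppSum, Finsupp.mul_sum]
  refine Finsupp.sum_congr fun m hm1 => ?_
  rw [Psi_single, MvPolynomial.monomial_mul]
  have hkP : k ∈ P := hKP hk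
  have h7 : ((Finsupp.equivFunOnFinite.symm fun i => if i ∈ P then 0 else
      ((m + fun i => ((α i : ℕ) : ℤ)) i + s i).toNat) : σ →₀ ℕ) = Finsupp.erase k α +
      Finsupp.equivFunOnFinite.symm fun i => if i ∈ P then 0 else (m i + s i).toNat := by
    ext i
    rw [Finsupp.add_apply, eqv, eqv]
    by_cases hi : i ∈ P
    · rw [if_pos hi, if_pos hi, add_zero]
      by_cases hik : i = k
      · rw [hik, Finsupp.erase_same]
      · rw [Finsupp.erase_ne hik, ha2 i hi hik]
    · rw [if_neg hi, if_neg hi]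
      have hik : i ≠ k := fun h => hi (h ▸ hkP)
      rw [Finsupp.erase_ne hik, Pi.add_apply]
      have h5 := hn k hk m hm1 i
      have h6 := hsn i
      omega
  rw [h7]
  simp

end Pool.Agent.NDR.H91
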