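import Pool.Agent.NDR.Defs
import Pool.Agent.Helper91_NDR.Glue

/-!
# Newton nondegenerate polynomials

Public definitions used in the statement of the theorem.
-/

set_option autoImplicit false

namespace Pool.Agent.Helper91_NDR

open Finset MvPolynomial Pool.Agent.Helper30_Simp Pool.Agent.NDR Pool.Agent.NDR.H91

variable {k : Type} [Field k] {σ : Type} [Fintype σ]

/-- the weight `w · α` of the exponent vector `α` -/
def wgt (w : σ → ℤ) (α : σ →₀ ℕ) : ℤ := ∑ i, w i * ((α i : ℕ) : ℤ)

open scoped Classical in
/-- the initial form of `f` for the weight vector `w`: the sum of the terms of least weight -/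
noncomputable def initForm (w : σ → ℤ) (f : MvPolynomial σ k) : MvPolynomial σ k :=
  ∑ α ∈ f.support.filter (fun α => ∀ β ∈ f.support, wgt w α ≤ wgt w β),
    monomial α (coeff α f)

/-- `f` is Newton nondegenerate: for every weight vector `w ≥ 0` (every face of the Newton
polyhedron) the initial form of `f` is smooth in the torus, and if all terms of `f` have positive
weight then also all initial forms of this initial form, for arbitrary integral weights `v` (the
other faces of its Newton polytope; nothing new for `w > 0`), are smooth in the torus -/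
def Nondegenerate (f : MvPolynomial σ k) : Prop :=
  ∀ w : σ → ℤ, (∀ i, 0 ≤ w i) → TorusSmooth (initForm w f) ∧
    ((∀ α ∈ f.support, 0 < wgt w α) → ∀ v : σ → ℤ, TorusSmooth (initForm v (initForm w f)))

theorem initForm_eq (w : σ → ℤ) (f : MvPolynomial σ k) :
    initForm w f = prt f (fcz f.support w) := by
  unfold initForm prt fcz wgt
  refine Finset.sum_congr ?_ fun _ _ => rfl
  ext a
  simp only [Finset.mem_filter]

theorem fcz_sub (M : Finset (σ →₀ ℕ)) (w : σ → ℤ) : fcz M w ⊆ M := by
  unfold fcz
  exact Finset.filter_subset _ _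

theorem support_initForm (w : σ → ℤ) (f : MvPolynomial σ k) :
    (initForm w f).support = fcz f.support w := by
  rw [initForm_eq, support_prt f _ (fcz_sub _ _)]

theorem fcn_eq_fcz (M : Finset (σ →₀ ℕ)) (u : σ → ℕ) : fcn M u = fcz M fun i => (u i : ℤ) := by
  classical
  ext a
  unfold fcn fcz
  simp only [Finset.mem_filter]
  refine and_congr_right fun _ => forall_congr' fun β => imp_congr_right fun _ => ?_
  unfold dot
  rw [← Nat.cast_le (α := ℤ)]
  push_cast
  exact Iff.rfl

theorem prt_prt (f : MvPolynomial σ k) (S T : Finset (σ →₀ ℕ)) (h : T ⊆ S) :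
    prt (prt f S) T = prt f T := by
  classical
  ext α
  rw [coeff_prt, coeff_prt, coeff_prt]
  by_cases hα : α ∈ T
  · rw [if_pos hα, if_pos (h hα)]
    exact (if_pos hα).symm
  · rw [if_neg hα]
    exact (if_neg hα).symm

theorem nondeg_iff (f : MvPolynomial σ k) : Nondegenerate f ↔ ND f := by
  constructor
  · intro h
    refine ⟨fun u => ?_, fun κ η hκ => ?_⟩
    · have h1 := (h (fun i => (u i : ℤ)) (fun i => Int.natCast_nonneg _)).1
      rwa [initForm_eq, ← fcn_eq_fcz] at h1
    · have h1 := (h (fun i => (κ i : ℤ)) (fun i => Int.natCast_nonneg _)).2 (fun α hα => by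
        have := hκ α hα
        unfold dot at this
        show (0 : ℤ) < ∑ i, (κ i : ℤ) * ((α i : ℕ) : ℤ)
        exact_mod_cast this) η
      rw [initForm_eq, support_initForm, initForm_eq, ← fcn_eq_fcz, prt_prt] at h1
      · exact h1
      · exact fcz_sub _ _
  · intro h w hw
    obtain ⟨u, rfl⟩ : ∃ u : σ → ℕ, w = fun i => (u i : ℤ) :=
      ⟨fun i => (w i).toNat, funext fun i => (Int.toNat_of_nonneg (hw i)).symm⟩
    refine ⟨?_, fun hpos v => ?_⟩
    · rw [initForm_eq, ← fcn_eq_fcz]
      exact h.1 u
    · rw [initForm_eq, support_initForm, initForm_eq, ← fcn_eq_fcz, prt_prt _ _ _ (fcz_sub _ _)]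
      refine h.2 u v fun α hα => ?_
      have h1 : (0 : ℤ) < ∑ i, (u i : ℤ) * ((α i : ℕ) : ℤ) := hpos α hα
      unfold dot
      exact_mod_cast h1

end Pool.Agent.Helper91_NDR
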