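import Pool.Agent.Helper58_NDR.AsmG
import Pool.Agent.Helper58_NDR.AsmL
import Pool.Agent.Helper13_NDR.TOR
import Pool.Agent.Helper34_NDR.KRM
import Pool.Agent.Helper50_NDR.GEN
import Pool.Agent.Helper47_NDR.TRS
import Pool.Agent.Helper13_NDR.FCF
import Pool.Agent.Helper16_NDR.GLA
import Pool.Agent.Helper66_NDR.GLF
import Pool.Agent.Helper56_NDR.RES

/-!
# Squad NDR: the root side, all rows filled in (helper91)
-/

set_option autoImplicit false

namespace Pool.Agent.NDR.H91

open Pool.Agent.NDR

theorem torAll : TorStmt := H13.tor (H51.kun_of H27.ksg)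

theorem rrzAll : RrzStmt := H58.rrzAll torAll (H34.krm H27.ksg)

theorem genAll : GenStmt := H50.gen H41.sph H58.devAll

theorem rrsAll : RrsStmt := H58.rrsAll genAll (H47.trs H41.sph)

theorem glaAll : GlaStmt := H16.gla rrzAll rrsAll H58.bseAll H58.khoAll

theorem glAll : GLStmt := H66G.glf glaAll H13.fcf

theorem resAll : RESStmt := H56.res glAll H58.choAll

/-- **The roots of the candidate polynomial are roots of `b`** -/
theorem rootsAll : RootsStmt := H58.roots_of_res resAll

end Pool.Agent.NDR.H91
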