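import Pool.Agent.NDR.Iface
import Pool.Agent.Helper91_NDR.Glue

set_option autoImplicit false

namespace Pool.Agent.NDR.H91

open Finset Pool.Agent.Helper30_Simp Pool.Agent.NDR

open scoped Classical in
/-- **ROOTS**: the root side from the blocks R, L, B -/
theorem rts (hM : MnfStmt) (hLP : LpaStmt) (hD : DegStmt) (hW : WskStmt) (hG : GluStmt)
    (hR : RsoStmt) (hB : BEZ.BziStmt) : RootsStmt := by
  intro σ _ F hF κ N B hN hge hBM hBne hBN hind hflat hgood
  by_contra hroot
  -- the minimal face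
  obtain ⟨κ', N', hN', hz, hge', hBN', hslope, hmin⟩ := hM σ F.support B κ N hN
    (fun a ha => by
      have := hge a ha
      unfold dot at this
      exact_mod_cast this) hBM
    (fun b hb => by
      have := hBN b hb
      unfold dot at this
      exact_mod_cast this)
    (fun v hv hb => hflat v hv (fun α hα => hb α hα))
  have hdot : ∀ α : σ →₀ ℕ, dot κ' α = ∑ i, κ' i * α i := by
    intro α
    unfold dot
    simp
  have hroot' : (Helper6_Mono.bfun F).eval (-(((∑ i, κ' i : ℕ) : ℂ) / (N' : ℕ))) ≠ 0 := by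
    have h1 : (((∑ i, κ' i : ℕ) : ℂ) / (N' : ℕ)) = (((∑ i, κ i : ℕ) : ℂ) / (N : ℕ)) := by
      have hN1 : (N : ℂ) ≠ 0 := by exact_mod_cast hN.ne'
      have hN2 : (N' : ℂ) ≠ 0 := by exact_mod_cast hN'.ne'
      rw [div_eq_div_iff hN2 hN1]
      exact_mod_cast hslope
    rw [h1]
    exact hroot
  set A : Finset (σ →₀ ℕ) := lev F.support κ' N' with hA
  have hAM : ∀ a ∈ A, a ∈ F.support ∧ ∑ i, κ' i * a i = N' := by
    intro a ha
    have := Finset.mem_filter.1 ha
    rw [hdot] at this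
    exact this
  have hmA : ∀ a, a ∈ F.support → ∑ i, κ' i * a i = N' → a ∈ A := by
    intro a h1 h2
    rw [hA]
    unfold lev
    rw [Finset.mem_filter, hdot]
    exact ⟨h1, h2⟩
  have hBA : B ⊆ A := fun b hb => hmA b (hBM hb) (hBN' b hb)
  have hAne : A.Nonempty := hBne.mono hBA
  set I : Finset σ := sup κ' with hI
  have hmI : ∀ i, i ∈ I ↔ κ' i ≠ 0 := by
    intro i
    rw [hI]
    unfold sup
    rw [Finset.mem_filter]
    exact ⟨fun h => h.2, fun h => ⟨Finset.mem_univ _, h⟩⟩
  have hoff : ∀ v : σ → ℚ, Off I v ↔ ∀ i, κ' i = 0 → v i = 0 := by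
    intro v
    unfold Off
    refine forall_congr' fun i => ?_
    rw [hmI, not_not]
  have hoff' : ∀ v : σ → ℚ, Off I v ↔ ∀ i, κ i = 0 → v i = 0 := by
    intro v
    rw [hoff]
    exact forall_congr' fun i => by rw [hz]
  have hNq : (N' : ℚ) ≠ 0 := by exact_mod_cast hN'.ne'
  have hFl : FlatD A B I := by
    refine ⟨hBA, ⟨fun i => (κ' i : ℚ) / N', ?_, ?_, ?_⟩, ?_, ?_, ?_⟩
    · intro i hi
      have h1 : 0 < κ' i := Nat.pos_of_ne_zero ((hmI i).1 hi)
      have h2 : 0 < (N' : ℚ) := by exact_mod_cast hN'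
      have h3 : 0 < (κ' i : ℚ) := by exact_mod_cast h1
      exact div_pos h3 h2
    · rw [hoff]
      intro i hi
      show (κ' i : ℚ) / N' = 0
      rw [hi]
      simp
    · intro a ha
      have h1 : (∑ i, (κ' i : ℚ) * (a i : ℚ)) = N' := by exact_mod_cast (hAM a ha).2
      unfold dq
      have h2 : ∀ i, (κ' i : ℚ) / N' * (a i : ℚ) = (κ' i : ℚ) * (a i : ℚ) / N' := by
        intro i
        ring
      simp_rw [h2]
      rw [← Finset.sum_div, h1, div_self hNq]
    · -- independence over ℚ from independence over ℤ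
      intro t ht b hb
      -- clear denominators
      obtain ⟨D, hD0, hDt⟩ : ∃ D : ℕ, 0 < D ∧ ∀ b ∈ B, ∃ z : ℤ, (D : ℚ) * t b = z := by
        refine ⟨∏ b ∈ B, (t b).den, Finset.prod_pos fun b _ => (t b).pos, fun b hb => ?_⟩
        obtain ⟨e, he⟩ := Finset.dvd_prod_of_mem (fun b => (t b).den) hb
        refine ⟨(e : ℤ) * (t b).num, ?_⟩
        have h1 : ((t b).den : ℚ) * t b = (t b).num := by
          rw [mul_comm]
          exact Rat.mul_den_eq_num (t b)
        rw [he]
        push_cast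
        rw [mul_comm ((t b).den : ℚ) (e : ℚ), mul_assoc, h1]
      choose! z hzz using hDt
      have h1 : (fun b : B => z b) = 0 := by
        apply hind
        intro j
        have h2 := ht j
        have h3 : ∑ b ∈ B, (z b : ℚ) * (b j : ℚ) = 0 := by
          have h4 : ∑ b ∈ B, (z b : ℚ) * (b j : ℚ) = (D : ℚ) * ∑ b ∈ B, t b * (b j : ℚ) := by
            rw [Finset.mul_sum]
            refine Finset.sum_congr rfl fun b hb => ?_
            rw [← hzz b hb]
            ring
          rw [h4, h2, mul_zero]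
        have h5 : ∑ b ∈ B, z b * ((b j : ℕ) : ℤ) = 0 := by exact_mod_cast h3
        rw [← Finset.sum_coe_sort] at h5
        exact h5
      have h6 : z b = 0 := congrFun h1 ⟨b, hb⟩
      have h7 := hzz b hb
      rw [h6] at h7
      have hDq : (D : ℚ) ≠ 0 := by exact_mod_cast hD0.ne'
      rcases mul_eq_zero.1 (h7.trans (by simp)) with h8 | h8
      · exact absurd h8 hDq
      · exact h8
    · intro v hv hb
      exact hflat v ((hoff' v).1 hv) (fun α hα => hb α hα)
    · intro v hv h1 h2 a ha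
      exact hmin v ((hoff' v).1 hv) (fun a ha1 ha2 => h1 a (hmA a ha1 ha2)) h2 a
        (hAM a ha).1 (hAM a ha).2
  have hGo : GoodB B I := by
    intro b hb j hj hbj hpriv
    have hκ : ∀ i, i ∈ I ↔ κ i ≠ 0 := by
      intro i
      rw [hmI, not_iff_not]
      exact hz i
    obtain ⟨l, h1, h2, h3, h4⟩ := hgood b hb j ((hκ j).1 hj) hbj hpriv
    exact ⟨l, (hκ l).2 h2, h1, h3, h4⟩
  obtain ⟨y, p, μ, hy, hp, hy1⟩ := hLP σ A B I hFl
  obtain ⟨m₀, η, hm₀, hη, hrel⟩ := hR σ F κ' N' y p μ hF.1 hN'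
    (fun α hα => by
      rw [hdot]
      exact hge' α hα) hAne
    (fun v hv hb => hFl.flat v hv (fun b hb' => hb b (hBA hb')))
    (fun i hi h0 => by
      have := hy.off i (fun h => (hmI i).1 h h0)
      rw [this] at hi
      exact lt_irrefl _ hi) hp hroot'
  set P : Finset σ := Finset.univ.filter (fun i => 0 < y i) with hP
  set K : Finset σ := Finset.univ.filter (fun i => y i = 1) with hK
  have hmP : ∀ i, i ∈ P ↔ 0 < y i := fun i => by
    rw [hP, Finset.mem_filter]
    exact ⟨fun h => h.2, fun h => ⟨Finset.mem_univ _, h⟩⟩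
  have hmK : ∀ i, i ∈ K ↔ y i = 1 := fun i => by
    rw [hK, Finset.mem_filter]
    exact ⟨fun h => h.2, fun h => ⟨Finset.mem_univ _, h⟩⟩
  have hKP : K ⊆ P := fun k hk => by
    rw [hmP, (hmK k).1 hk]
    exact one_pos
  have hKI : ∀ k ∈ K, k ∈ I := fun k hk => by
    by_contra h
    have := hy.off k h
    rw [(hmK k).1 hk] at this
    exact one_ne_zero this
  obtain ⟨n, h, hfin⟩ := hG σ ℂ A I P K y p μ (fun a => MvPolynomial.coeff a F) m₀ η hy hp hy1 hmP
    hmK hm₀ (fun k hk m hm => by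
      obtain ⟨h1, h2⟩ := hη k hk m hm
      exact ⟨h1, fun i hi hik => h2 i ((hmP i).1 hi) hik⟩) hrel
  have hlevM : A ⊆ F.support := fun a ha => (hAM a ha).1
  refine hB ℂ σ A (fun a => MvPolynomial.coeff a F) P K hKP
    (fun a ha => MvPolynomial.mem_support_iff.1 (hlevM ha)) ?_ ?_ ?_ n h hfin
  · intro a ha j hj haj
    obtain ⟨h1, h2⟩ := (hD σ A I y p μ hy hp hy1 j (hKI j hj)).2 ((hmK j).1 hj) a ha haj
    exact ⟨h1, fun i hi hij => h2 i ((hmP i).1 hi) hij⟩
  · intro u
    have h1 := hF.2 κ' u (fun α hα => lt_of_lt_of_le hN' (by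
      rw [hdot]
      exact hge' α hα))
    rw [fcn_eq_lev _ _ _ (fun α hα => by
      rw [hdot]
      exact hge' α hα) hAne] at h1
    have h2 : prt F (fcz (lev F.support κ' N') u) = ∑ a ∈ A.filter (fun a => ∀ b ∈ A,
        BEZ.wt u a ≤ BEZ.wt u b), MvPolynomial.monomial a (MvPolynomial.coeff a F) := by
      unfold prt fcz BEZ.wt
      refine Finset.sum_congr ?_ fun _ _ => rfl
      ext a
      simp only [Finset.mem_filter]
      exact Iff.rfl
    rw [← h2]
    exact h1
  · intro K' hK'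
    exact hW σ A B I y hFl hGo hy K' (fun k hk => (hmK k).1 (hK' hk))

end Pool.Agent.NDR.H91
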